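import Pool.Agent.HF.Stmts

/-!
# Squad HF, module CXB: basic properties of the complexity
-/

namespace Pool.Agent.HF.H55

open Pool.Agent.HF

noncomputable section

section

variable {G D : Type} [Group G] [DivisionRing D] {sg : G →* D} {S : Subgroup G}

theorem val_mem (e : Ex G) (h : e.In S) : e.val sg ∈ DS sg (S : Set G) := by
  induction e with
  | of g => exact Subfield.subset_closure ⟨g, h, rfl⟩
  | zero => exact (DS sg (S : Set G)).zero_mem
  | add a b iha ihb => exact (DS sg (S : Set G)).add_mem (iha h.1) (ihb h.2)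
  | mul a b iha ihb => exact (DS sg (S : Set G)).mul_mem (iha h.1) (ihb h.2)
  | inv a iha => exact (DS sg (S : Set G)).inv_mem (iha h)

theorem exists_ex [CharP D 2] {x : D} (hx : x ∈ DS sg (S : Set G)) :
    ∃ e : Ex G, e.In S ∧ e.val sg = x := by
  induction hx using Subfield.closure_induction with
  | mem x h =>
    obtain ⟨g, hg, rfl⟩ := h
    exact ⟨Ex.of g, hg, rfl⟩
  | one => exact ⟨Ex.of 1, S.one_mem, map_one sg⟩
  | add x y _ _ ihx ihy =>
    obtain ⟨a, ha, rfl⟩ := ihx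
    obtain ⟨b, hb, rfl⟩ := ihy
    exact ⟨Ex.add a b, ⟨ha, hb⟩, rfl⟩
  | neg x _ ihx =>
    obtain ⟨a, ha, rfl⟩ := ihx
    exact ⟨a, ha, (CharTwo.neg_eq _).symm⟩
  | inv x _ ihx =>
    obtain ⟨a, ha, rfl⟩ := ihx
    exact ⟨Ex.inv a, ha, rfl⟩
  | mul x y _ _ ihx ihy =>
    obtain ⟨a, ha, rfl⟩ := ihx
    obtain ⟨b, hb, rfl⟩ := ihy
    exact ⟨Ex.mul a b, ⟨ha, hb⟩, rfl⟩

theorem one_le' (K : Cxs) (e : Ex G) : 1 ≤ cpx K e := by
  induction e with
  | of g => exact le_rfl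
  | zero => exact le_rfl
  | add a b iha ihb =>
    change 1 ≤ cpx K a + cpx K b
    exact iha.trans (le_add_of_nonneg_right (K.nonneg _))
  | mul a b iha ihb =>
    change 1 ≤ cpx K a * cpx K b
    calc (1 : K.T) = 1 * 1 := (one_mul 1).symm
      _ ≤ cpx K a * cpx K b := mul_le_mul iha ihb (K.nonneg _) (K.nonneg _)
  | inv a iha => exact (K.one_lt_Om _).le

variable (K : Cxs)

theorem cx_zero' : cx K sg S 0 = 0 := dif_neg fun h => h.1 rfl

theorem cx_le (e : Ex G) (h : e.In S) : cx K sg S (e.val sg) ≤ cpx K e := by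
  unfold cx
  split_ifs with h1
  · exact K.wf.min_le (s := cpx K '' {e' : Ex G | e'.In S ∧ e'.val sg = e.val sg})
      ⟨e, ⟨h, rfl⟩, rfl⟩
  · exact K.nonneg _

theorem cx_ex [CharP D 2] {x : D} (hx : x ∈ DS sg (S : Set G)) (h0 : x ≠ 0) :
    ∃ e : Ex G, e.In S ∧ e.val sg = x ∧ cpx K e = cx K sg S x := by
  have h1 : x ≠ 0 ∧ ∃ e : Ex G, e.In S ∧ e.val sg = x := ⟨h0, exists_ex hx⟩
  have h2 : cx K sg S x = K.wf.min (cpx K '' {e : Ex G | e.In S ∧ e.val sg = x})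
      (Set.Nonempty.image _ ⟨h1.2.choose, h1.2.choose_spec⟩) := dif_pos h1
  obtain ⟨e, he, hv⟩ := K.wf.min_mem (cpx K '' {e : Ex G | e.In S ∧ e.val sg = x})
      (Set.Nonempty.image _ ⟨h1.2.choose, h1.2.choose_spec⟩)
  exact ⟨e, he.1, he.2, hv.trans h2.symm⟩

theorem cx_gmul_le [CharP D 2] {x : D} (hx : x ∈ DS sg (S : Set G)) {g : G} (hg : g ∈ S) :
    cx K sg S (sg g * x) ≤ cx K sg S x := by
  by_cases h0 : x = 0
  · rw [h0, mul_zero]
  · obtain ⟨e, he, rfl, hc⟩ := cx_ex K hx h0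
    rw [← hc]
    have h := cx_le K (sg := sg) (Ex.mul (Ex.of g) e) (S := S) ⟨hg, he⟩
    have h2 : cpx K (Ex.mul (Ex.of g) e) = cpx K e := one_mul _
    rwa [h2] at h

theorem cx_mulg_le [CharP D 2] {x : D} (hx : x ∈ DS sg (S : Set G)) {g : G} (hg : g ∈ S) :
    cx K sg S (x * sg g) ≤ cx K sg S x := by
  by_cases h0 : x = 0
  · rw [h0, zero_mul]
  · obtain ⟨e, he, rfl, hc⟩ := cx_ex K hx h0
    rw [← hc]
    have h := cx_le K (sg := sg) (Ex.mul e (Ex.of g)) (S := S) ⟨he, hg⟩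
    have h2 : cpx K (Ex.mul e (Ex.of g)) = cpx K e := mul_one _
    rwa [h2] at h

theorem sg_mem {g : G} (hg : g ∈ S) : sg g ∈ DS sg (S : Set G) :=
  Subfield.subset_closure ⟨g, hg, rfl⟩

end

theorem cxb : CxbStmt := by
  intro K G D _ _ _ sg S
  refine ⟨cx_zero' K, one_le' K, val_mem, cx_le K, fun x hx h0 => cx_ex K hx h0, ?_, ?_, ?_, ?_, ?_⟩
  · intro x hx y hy
    by_cases h0 : x = 0
    · rw [h0, zero_add, cx_zero', zero_add]
    by_cases h1 : y = 0
    · rw [h1, add_zero, cx_zero', add_zero]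
    obtain ⟨a, ha, rfl, hca⟩ := cx_ex K hx h0
    obtain ⟨b, hb, rfl, hcb⟩ := cx_ex K hy h1
    rw [← hca, ← hcb]
    exact cx_le K (sg := sg) (Ex.add a b) (S := S) ⟨ha, hb⟩
  · intro x hx y hy
    by_cases h0 : x = 0
    · rw [h0, zero_mul, cx_zero', zero_mul]
    by_cases h1 : y = 0
    · rw [h1, mul_zero, cx_zero', mul_zero]
    obtain ⟨a, ha, rfl, hca⟩ := cx_ex K hx h0
    obtain ⟨b, hb, rfl, hcb⟩ := cx_ex K hy h1
    rw [← hca, ← hcb]
    exact cx_le K (sg := sg) (Ex.mul a b) (S := S) ⟨ha, hb⟩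
  · intro x hx
    by_cases h0 : x = 0
    · rw [h0, inv_zero, cx_zero']
      exact K.nonneg _
    obtain ⟨a, ha, rfl, hca⟩ := cx_ex K hx h0
    rw [← hca]
    exact cx_le K (sg := sg) (Ex.inv a) (S := S) ha
  · intro x hx g hg
    refine le_antisymm (cx_gmul_le K hx hg) ?_
    have h := cx_gmul_le K ((DS sg (S : Set G)).mul_mem (sg_mem hg) hx) (S.inv_mem hg)
    rwa [← mul_assoc, ← map_mul, inv_mul_cancel, map_one, one_mul] at h
  · intro x hx g hg
    refine le_antisymm (cx_mulg_le K hx hg) ?_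
    have h := cx_mulg_le K ((DS sg (S : Set G)).mul_mem hx (sg_mem hg)) (S.inv_mem hg)
    rwa [mul_assoc, ← map_mul, mul_inv_cancel, map_one, mul_one] at h

end

end Pool.Agent.HF.H55
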