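import Pool.Agent.HF.Stmts

/-!
# Squad HF, module TA: the components of a cycle are cycles
-/

namespace Pool.Agent.HF.H55

open Pool.Agent.HF Pool.Agent.Glue Pool.Agent.FB Pool.Agent.CD
open scoped TensorProduct

noncomputable section

theorem part_single {G I V : Type} [Group G] [Fintype I] [DecidableEq I] [AddCommGroup V]
    [Module F2 V] (C : Cells G I) (σ : Representation F2 G V) (k : I) (w : V) (j : I) :
    part C σ (Pi.single k w) j = (C.bd k j).coeff.sum fun h c => (c : F2) • σ h⁻¹ w := by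
  change ∑ i, (C.bd i j).coeff.sum (fun h c => (c : F2) • σ h⁻¹ ((Pi.single k w : I → V) i)) = _
  rw [Finset.sum_eq_single k]
  · rw [Pi.single_eq_same]
  · intro i _ hi
    rw [Pi.single_eq_of_ne hi]
    refine Finset.sum_eq_zero fun h _ => ?_
    simp only [map_zero, smul_zero]
  · intro h
    exact (h (Finset.mem_univ k)).elim

theorem part_sum {G I V : Type} [Group G] [Fintype I] [DecidableEq I] [AddCommGroup V]
    [Module F2 V] (C : Cells G I) (σ : Representation F2 G V) {r : ℕ} (i : Fin r → I)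
    (w : Fin r → V) (j : I) :
    part C σ (∑ m, Pi.single (i m) (w m)) j =
      ∑ m, ∑ h ∈ (C.bd (i m) j).coeff.support, ((C.bd (i m) j).coeff h : F2) • σ h⁻¹ (w m) := by
  rw [map_sum, Finset.sum_apply]
  refine Finset.sum_congr rfl fun m _ => ?_
  rw [part_single]
  rfl

section

variable {G : Type} [Group G] {h : HFd G} {L : Subgroup G} (E : Ell h.sg L)

theorem L_zero : E.L 0 = 0 := by
  have h1 := E.L_add 0 (DS h.sg (L : Set G)).zero_mem 0 (DS h.sg (L : Set G)).zero_mem
  rw [add_zero] at h1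
  exact left_eq_add.1 h1

theorem F2_cases (c : F2) : c = 0 ∨ c = 1 := by
  revert c
  decide

theorem smul_mem' (c : F2) {u : h.D} (hu : u ∈ DS h.sg (L : Set G)) :
    c • u ∈ DS h.sg (L : Set G) := by
  rcases F2_cases c with rfl | rfl
  · rw [zero_smul]
    exact (DS h.sg (L : Set G)).zero_mem
  · rwa [one_smul]

theorem Bn_smul (c : F2) (u : h.D) (Y : HahnSeries ℤ h.D) (n : ℤ) :
    Bn (E.L (c • u)) Y n = c • Bn (E.L u) Y n := by
  rcases F2_cases c with rfl | rfl
  · rw [zero_smul, zero_smul, L_zero]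
    unfold Bn
    simp
  · rw [one_smul, one_smul]

theorem cmp_fin (hc : CmpStmt) {κ : Type} (s : Finset κ) (a : κ → G) (u v : κ → h.D)
    (hu : ∀ k ∈ s, u k ∈ DS h.sg (L : Set G)) (hv : ∀ k ∈ s, v k ∈ DS h.sg (L : Set G))
    (hz : ∑ k ∈ s, (u k * h.sg (a k)) ⊗ₜ[F2] (h.sg (a k)⁻¹ * v k) = 0) (n : ℤ) :
    ∑ k ∈ s, rq h.sg (a k)⁻¹ (Bn (E.L (u k)) (E.L (v k)) n) = 0 := by
  have e := s.equivFin.symm
  have hs : ∀ {M : Type} [AddCommMonoid M] (f : κ → M), ∑ k ∈ s, f k = ∑ m, f (e m).1 := by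
    intro M _ f
    rw [← Finset.sum_coe_sort]
    exact (Equiv.sum_comp e fun x : s => f x.1).symm
  rw [hs] at hz ⊢
  exact hc G h L E s.card (fun m => a (e m).1) (fun m => u (e m).1) (fun m => v (e m).1)
    (fun m => hu _ (e m).2) (fun m => hv _ (e m).2) hz n

theorem rq_tmul (g : G) (x y : h.D) :
    rq h.sg g (x ⊗ₜ[F2] y) = (x * h.sg g⁻¹) ⊗ₜ[F2] (h.sg g * y) := rfl

end

theorem ta (hc : CmpStmt) : TaStmt := by
  intro G _ h L E I _ _ C r i a u v hu hv hz n
  funext j
  have hj := congrFun hz j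
  unfold zt at hj
  rw [part_sum] at hj
  unfold ztn
  rw [part_sum]
  have key := cmp_fin E hc (κ := Σ _ : Fin r, G)
    (Finset.univ.sigma fun m => (C.bd (i m) j).coeff.support)
    (fun p => a p.1 * p.2) (fun p => ((C.bd (i p.1) j).coeff p.2 : F2) • u p.1) (fun p => v p.1)
    (fun p _ => smul_mem' _ (hu p.1)) (fun p _ => hv p.1) ?_ n
  · rw [Finset.sum_sigma] at key
    refine Eq.trans ?_ key
    refine Finset.sum_congr rfl fun m _ => Finset.sum_congr rfl fun g _ => ?_
    simp only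
    rw [Bn_smul, map_smul, mul_inv_rev, map_mul]
    rfl
  · rw [Finset.sum_sigma]
    refine Eq.trans ?_ hj
    refine Finset.sum_congr rfl fun m _ => Finset.sum_congr rfl fun g _ => ?_
    simp only
    rw [rq_tmul, inv_inv, TensorProduct.smul_tmul', map_mul, mul_inv_rev, map_mul, mul_assoc,
      mul_assoc, smul_mul_assoc]

end

end Pool.Agent.HF.H55
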